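import Pool.Agent.FHA.Bridge
import Pool.Agent.Hhelper47.PermExt.Main

/-!
`log M_2(k) = k ^ (1/2 + o(1))`: the exponent of the largest Füredi-Hajnal constant of the permutations of size
`k` is determined.
-/

set_option autoImplicit false

namespace Pool.Agent.Retired.MP_f36a55_co.ExponentTwoDim

open Pool.Agent.Hhelper47.PermExt

/-- For every `ε > 0` there is `C` such that `2 ^ (√k / 36) ≤ M_2(k) ≤ 2 ^ (C k ^ (1/2 + ε))` for all `k ≥ 2`. -/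
theorem result (ε : ℝ) (hε : 0 < ε) : ∃ C : ℝ, 0 < C ∧ ∀ k : ℕ, 2 ≤ k →
    ENNReal.ofReal ((2:ℝ) ^ (√(k:ℝ) / 36)) ≤ M 2 k ∧
    M 2 k ≤ ENNReal.ofReal ((2:ℝ) ^ (C * (k:ℝ) ^ (1 / 2 + ε))) := by
  obtain ⟨C, hC, h⟩ := FHA.M_le hε
  exact ⟨C, hC, fun k hk => ⟨le_M 2 k le_rfl hk, h k (by omega)⟩⟩

end Pool.Agent.Retired.MP_f36a55_co.ExponentTwoDim
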